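import Pool.Agent.L7h62.MM.Fin6

/-!
# The minimal model conjecture for the varieties dominated by products with an arbitrary factor

Let `V = X_0 × ... × X_(k-1) × Y`, where the `X_i` are projective varieties over `ℂ` of dimension `m_i`
whose canonical forms separate many points, and `Y` is **any** projective variety, of any dimension `s`.
Let `V ⇢ W` be a dominant rational map of finite degree to a variety `W`. It need not be related to the
product structure, and it need not be the quotient by a group. Let `W_i` be the image of `V` in
`W × X_0 × ... × X_(i-1)`, and let `d_i` be the degree over `W_i` of the image of `V` in `W_i × X_i`; for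
example `d_0` is the number of different points of `X_0` below a general fibre of `V ⇢ W`. The product of
the `d_i` is at most the degree of `V ⇢ W`; there is no condition on the degree in the direction of `Y`.

**Theorem.** Suppose that for all `i` the canonical forms of `X_i` separate `2 d_i` generic points. Then
there is a fibration `f : W ⇢ Z` (with connected fibres) such that

* the canonical map of `Z` is generically finite; in particular **`Z` is of general type**;
* `dim Z ≥ ∑ m_i`, so the fibres of `f` have dimension at most `s = dim Y`; and more precisely
  `dim Z ≤ ∑ m_i + j` for a number `j ≤ s` such that `Y` has a nonzero holomorphic `j`-form;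
* the fibres of `f` are the images of subvarieties of the fibres `{x} × Y` of `V`: the functions on the
  `X_i` are algebraic over the function field of `Z`, and `f` is universal with this property.

For example, `X_i` may be a curve of gonality greater than `2 d_i`, or a smooth hypersurface of degree at
least `m_i + 1 + 2 d_i`, or a smooth complete intersection with canonical bundle `O(m)`, where `m` is
large and `d_i` may be of the order of `m ^ 2` (see the starting results
`MP_97d78d_ag.ProductsOfVarieties`, `MP_31564d_ag.CompleteIntersections`).

## Consequences for Q1

All varieties `X` birational to `W` are considered.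

* If `dim Z = dim W`, then `W` is of general type, and Q1 is true for `X` by the theorem of Birkar, Cascini,
  Hacon and McKernan.
* Let `dim Y ≤ 3` (or more generally `dim Z ≥ dim W - 3`). Then Q1 is true for `X`: if `K_X` is not
  pseudo-effective this is the theorem of these authors. If `K_X` is pseudo-effective then so is `K_F` for
  the general fibre `F` of `f`; since `dim F ≤ 3`, `κ(F) ≥ 0`. Since `Z` is of general type, `mK_X - f^*A`
  is effective for an ample divisor `A` on `Z` and some `m`, and `κ(X) = dim Z + κ(F)` (Kawamata, Viehweg), and
  the fibres `G` of the Iitaka fibration of `X` are contained in the fibres of `f`. They have dimension at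
  most three, so they have good minimal models, and so has `X` by the theorem of Lai (Varieties fibered by good
  minimal models, 2011), which gives (a). So these are varieties `X` of arbitrarily large dimension, of
  all Kodaira dimensions `≥ ∑ m_i` (and `-∞`), with `q(X) = 0` for suitable factors, for which Q1 is
  true.
* In general Q1 for `X`, with good minimal models, is reduced to varieties of dimension at most `dim Y`,
  the fibres of `f`. If `Y` has no nonzero holomorphic forms of positive degree then `dim Z = ∑ m_i`.

(These consequences use the published theorems, and are not part of the Lean proof.)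

For `s = 1` (a curve `Y`) the varieties `W` were treated by helper145
(`MP_97d78d_ag.ProductsOfVarieties`): `K_W` is pseudo-effective if and only if `κ(W) ≥ dim W - 1`. There
the fibres are curves; this is used in the proof, and if `dim Y ≥ 2` neither the trace argument of the proof
there nor its conclusion remain true.

## Proof

Let `E` be the function field of `∏ X_i`, `F` the one of `Y`, `K = E F`, `L ⊆ K` the one of `W`, and let `N`
be the algebraic closure in `L` of the field generated by the coefficients of the minimal polynomials over
`L` of the elements of `E`. It is the function field of `Z`. The canonical forms of `W`, and also the ones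
of `Z`, cannot be obtained as traces: the traces of the products of canonical forms of `∏ X_i` and of `Y`
to `W` may all be zero, and `Y` may have no canonical forms. So let `t` be a transcendence basis of `K`
over `N` in `F`, of cardinality `q = dim W - dim Z`, `k = ℂ(t)` and consider the varieties over the field
`k`, with the function field `K`, and with the function field `N(t)` below it. Let `j` be the greatest
number such that a regular form on `N(t) / k`, pulled back to `K`, does not vanish on `j` vector fields which
are tangent to the fibres of `V → ∏ X_i`. By a base change theorem for regular forms (`BC1`, `BC2`, `BC3`)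
and a trace-dual basis of `K / F(x)` in `E` there is a regular `j`-form `φ` on `F / k` such that the trace of
`φ` to `N(t) E` is not zero (`Star`). By the separation of the points of `∏ X_i` the traces of `ω ∧ φ` to
`N(t)`, for the canonical forms `ω` of `∏ X_i`, determine the sums over the points with a fixed image in
`∏ X_i`. All conjugates of these sums vanish on `j + 1` vector fields tangent to the fibres over one of
the conjugate points of `∏ X_i`; since no vector field is tangent to all of them, by the definition of
`N`, linear algebra (`LA`) gives `j ≥ dim N(t) / k - dim E` (`Core`), so that `φ` is a form of top degree,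
and the traces of `ω ∧ φ` are canonical forms on `N(t) / k`, not all zero. By base change again, they give
canonical forms on `Z` (`Low`). Since `2 d_i` points are separated, the ratios of the traces determine the
whole set of the conjugate points of `∏ X_i` (`SepA`, `Prod`), so the elements of `N` are algebraic over
the field generated by the ratios (`Fin2`). The bound for `dim Z` follows by applying `Star` to the canonical
forms of `Z` as forms on `W` over `ℂ` (`Fin5`).

The relations for the points of several factors and the products of canonical forms
(`Pool/Agent/N145/SX/Chain`, `Prods`) are due to helper145 and others. The other parts are in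
`Pool/Agent/L7h62/MM`.
-/

set_option autoImplicit false
set_option linter.overlappingInstances false
set_option maxHeartbeats 4000000
set_option synthInstance.maxHeartbeats 400000

open FF Module Pool.Agent Pool.Agent.W602.GT
open Pool.Agent.L7h62.MM (CanonicalMapFinite)

namespace Pool.Agent.Results.MP_fa3f7f_ag.DominatedByProducts

/-- **The canonical forms separate `r` generic points.** `E` is the function field of a variety `X` of
dimension `m`, and `D` a rational frame of the tangent bundle. The embeddings `σ : E → Ω` are the
generic points of `X` with coordinates in the field `Ω`. At most `r` different such points impose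
independent conditions on the canonical forms `ω` which are regular at all prime divisors: if
`∑ c σ * σ (ω D) = 0` for all `ω` then all the coefficients `c σ` are zero. -/
def SeparatesPoints (E : Type) [Field E] [Algebra ℂ E] (m r : ℕ) : Prop :=
  ∀ D : Fin m → Derivation ℂ E E, LinearIndependent E D →
    ∀ (Ω : Type) [Field Ω] [Algebra ℂ Ω] [IsAlgClosed Ω] (A : Finset (E →ₐ[ℂ] Ω)), A.card ≤ r →
    ∀ c : (E →ₐ[ℂ] Ω) → Ω,
    (∀ ω : (Fin m → Derivation ℂ E E) → E, IsPluri 1 ω →
      (∀ P : Place ℂ E, Divisorial m P → RegAt P ω) → ∑ σ ∈ A, c σ * σ (ω D) = 0) →
    ∀ σ ∈ A, c σ = 0

/-- The smooth projective varieties with the function field `F`, of dimension `s`, have a nonzero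
holomorphic `j`-form: there is a nonzero alternating form `φ` on the rational vector fields whose
values on vector fields that are regular at a prime divisor are regular there. -/
def HasForm (F : Type) [Field F] [Algebra ℂ F] (s j : ℕ) : Prop :=
  ∃ φ : (Derivation ℂ F F) [⋀^Fin j]→ₗ[F] F, φ ≠ 0 ∧
    ∀ P : Place ℂ F, Divisorial s P → ∀ D : Fin j → Derivation ℂ F F,
      (∀ i, DerReg P (D i)) → P.Reg (φ D)

variable {K : Type} [Field K] [Algebra ℂ K] {k : ℕ}

/-- The function field of the image `W_i` of `V` in the product of `W` and the first `i` factors.
Here `K` and `L` are the function fields of `V` and `W`, and `F l` is the one of the `l`-th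
factor. -/
noncomputable def Img (F : Fin (k + 1) → IntermediateField ℂ K) (L : Type) [Field L] [Algebra L K]
    (i : ℕ) : IntermediateField L K :=
  IntermediateField.adjoin L {z | ∃ l : Fin (k + 1), l.val < i ∧ z ∈ F l}

/-- The degree over `W_i` of the image of `V` in the product of `W_i` and the `i`-th factor. -/
noncomputable def deg (F : Fin (k + 1) → IntermediateField ℂ K) (L : Type) [Field L] [Algebra L K]
    (i : Fin (k + 1)) : ℕ :=
  finrank (Img F L i) (IntermediateField.adjoin (Img F L i) (F i : Set K))

/-- The functions on the first `k` factors are algebraic over the subfield `N` of `L`, and `N` is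
algebraically closed in `L`: `N` is the function field of the base `Z` of a fibration `W ⇢ Z` whose
fibres are images of subvarieties of the fibres of `V` over the product of the first `k` factors. -/
def Base (F : Fin (k + 1) → IntermediateField ℂ K) (L : Type) [Field L] [Algebra ℂ L]
    [Algebra L K] [IsScalarTower ℂ L K] (N : IntermediateField ℂ L) : Prop :=
  (∀ z : L, IsAlgebraic N z → z ∈ N) ∧ ∀ i : Fin k, ∀ z ∈ F i.castSucc, IsAlgebraic N z

theorem img_eq (F : Fin (k + 1) → IntermediateField ℂ K) (L : Type) [Field L] [Algebra L K]
    (i : Fin k) : Img F L i.castSucc =
      N145.PC.MF (fun i : Fin k => F i.castSucc) L (N145.PC.Js k i.val) := by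
  unfold Img N145.PC.MF N145.PC.MJ
  congr 1
  ext z
  simp only [Set.mem_iUnion, N145.PC.mem_Js, Set.mem_range, exists_prop]
  constructor
  · rintro ⟨l, hl, hz⟩
    have hl' : l.val < i.val := hl
    exact ⟨⟨l.val, hl'.trans i.2⟩, hl', ⟨z, hz⟩, rfl⟩
  · rintro ⟨l, hl, z, rfl⟩
    exact ⟨l.castSucc, hl, z.2⟩

theorem deg_eq (F : Fin (k + 1) → IntermediateField ℂ K) (L : Type) [Field L] [Algebra L K]
    (i : Fin k) : deg F L i.castSucc =
      finrank (N145.PC.MF (fun i : Fin k => F i.castSucc) L (N145.PC.Js k i.val))
        (IntermediateField.adjoin (N145.PC.MF (fun i : Fin k => F i.castSucc) L
          (N145.PC.Js k i.val)) (F i.castSucc : Set K)) := by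
  unfold deg
  rw [img_eq]

/-- **Varieties dominated by products with an arbitrary factor.** Let `K` be the function field of the
product `V` of the varieties with the function fields `F i`, `i < k`, of dimension `m i`, and of the
variety `Y` with the function field `F k`, of dimension `s`, i.e. `K` is the compositum and its
transcendence degree is `∑ m i + s`. Let `L ⊆ K` be the function field of a variety `W` such that the
extension is finite. Suppose that for all `i < k` the canonical forms of the `i`-th variety separate
`2 d i` generic points, where `d i` is the degree over `W_i` of the image of `V` in the product of `W_i`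
and this variety. Then there is a subfield `N` of `L`, the function field of a variety `Z` of dimension
`w`, such that: `N` is algebraically closed in `L` and the functions on the first `k` factors are
algebraic over `N`, and `N` is the smallest subfield with these properties; the canonical map of `Z` is
generically finite, so `Z` is of general type; `∑ m i ≤ w`, and `w ≤ ∑ m i + j` for a number `j ≤ s` such
that `Y` has a nonzero holomorphic `j`-form. -/
theorem result (k s : ℕ) (m : Fin k → ℕ) (K : Type) [Field K] [Algebra ℂ K]
    [Algebra.EssFiniteType ℂ K] (F : Fin (k + 1) → IntermediateField ℂ K) (hF : (⨆ i, F i) = ⊤)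
    (hm : ∀ i : Fin k, Algebra.trdeg ℂ (F i.castSucc) = m i)
    (hs : Algebra.trdeg ℂ (F (Fin.last k)) = s) (hK : Algebra.trdeg ℂ K = (∑ i, m i + s : ℕ))
    (L : Type) [Field L] [Algebra ℂ L] [Algebra L K] [IsScalarTower ℂ L K] [FiniteDimensional L K]
    (hX : ∀ i : Fin k, SeparatesPoints (F i.castSucc) (m i) (2 * deg F L i.castSucc)) :
    ∃ (N : IntermediateField ℂ L) (w : ℕ),
      (Base F L N ∧ ∀ N' : IntermediateField ℂ L, Base F L N' → N ≤ N') ∧
      CanonicalMapFinite N w ∧ ∑ i, m i ≤ w ∧
      ∃ j ≤ s, w ≤ ∑ i, m i + j ∧ HasForm (F (Fin.last k)) s j := by
  choose x D hx hD using fun i : Fin k => Y172.exists_crd (hm i)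
  obtain ⟨N, w, ⟨h1, h2, h3⟩, h4, h5, j, h6, h7, h8⟩ := L7h62.MM.multi (L := L) hF hm hs hK hx
    (g := fun i => 2 * deg F L i.castSucc + 1)
    (fun i => N145.SX.sepX_of' (hx i) (hD i) fun Ω _ _ _ A hA c hc =>
      hX i (D i) (N145.SX.dual_indep (hD i)) Ω A hA c hc)
    (fun i => by
      rw [deg_eq]
      exact Nat.lt_succ_self _)
  exact ⟨N, w, ⟨⟨h1, h2⟩, fun N' hN' => h3 N' hN'.1 hN'.2⟩, h4, h5, j, h6, h7, h8⟩

end Pool.Agent.Results.MP_fa3f7f_ag.DominatedByProducts
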