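import Pool.Agent.L7h62.MV.Fin

/-!
# The minimal model conjecture for varieties with multivalued maps to products

Let `W` be a projective variety over `ℂ` with a multivalued rational map to a product
`X_0 × ... × X_(k-1)`: there are a dominant rational map `W' ⇢ W` of finite degree and a dominant
rational map `W' ⇢ X_0 × ... × X_(k-1)`. Both are arbitrary; the fibres of the second one have
any dimension `s` and may vary in moduli. Let `m_i = dim X_i`, let `W_i` be the image of `W'` in
`W × X_0 × ... × X_(i-1)`, and let `d_i` be the degree over `W_i` of the image of `W'` in `W_i × X_i`;
for example `d_0` is the number of different points of `X_0` which correspond to a general point of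
`W`.

**Theorem.** Suppose that for all `i` the canonical forms of `X_i` separate `2 d_i` generic points.
Then there is a fibration `f : W ⇢ Z` (with connected fibres) such that

* `dim Z ≥ ∑ m_i`, and the fibres of `f` are images of subvarieties of the fibres of
  `W' ⇢ X_0 × ... × X_(k-1)`: the functions on the `X_i` are algebraic over the function field of `Z`, and
  `f` is universal with this property;
* a tensor power of the cotangent bundle of `Z` contains a big line bundle: there are `dim Z + 1`
  holomorphic tensors which are multiples of one of them, and whose quotients are `dim Z` algebraically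
  independent functions;
* if `dim Z = ∑ m_i` then the canonical map of `Z` is generically finite.

So `Z` is not uniruled (a big line bundle has positive degree on the free rational curves of a covering
family, but the restriction of `Ω¹` is a sum of line bundles of degree `≤ 0`), and **`Z` is of general
type** by the theorem of Campana and Păun (Foliations with positive slopes and birational stability of
orbifold cotangent bundles, Publ. Math. IHÉS 2019).

## Consequences for Q1

All varieties `X` birational to `W` are considered. Let `dim W' - ∑ m_i ≤ 3`, or more generally `dim Z ≥
dim W - 3`. Then Q1 is true for `X`, of any dimension: if `K_X` is not pseudo-effective this is the theorem of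
Birkar, Cascini, Hacon and McKernan. If `K_X` is pseudo-effective then so is `K_G` for the general
fibre `G` of `f`; since `dim G ≤ 3`, `κ(G) ≥ 0`. Since `Z` is of general type, `κ(X) = dim Z + κ(G)`
(Kawamata, Viehweg) and the fibres of the Iitaka fibration of `X` are contained in the fibres of `f`.
They have good minimal models, and so has `X` by the theorem of Lai (Varieties fibered by good minimal
models, 2011), which gives (a). In general Q1 for `X`, with good minimal models, is reduced to varieties of
dimension at most `dim W' - ∑ m_i`. (These consequences use the published theorems, and are not part of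
the Lean proof.)

In `MP_fa3f7f_ag.DominatedByProducts` the variety `W'` is the product of the `X_i` and a variety `Y`; this
was used to show that the traces of the products of canonical forms of `∏ X_i` and of forms of `Y` give
canonical forms on `Z`. Here there is no such factor, e.g. `W'` may be any family of varieties over `∏ X_i`,
and `Z` may have no obvious canonical forms.

## Proof

Let `E` be the function field of `∏ X_i`, `L` the one of `W`, and let `N` be the algebraic closure in
`L` of the field generated by the coefficients of the minimal polynomials over `L` of the elements
of `E`, the function field of `Z`. The field `M = N E` is finite over `N`. For the canonical forms `ω` of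
`∏ X_i`, of degree `n = ∑ m_i`, the traces `Θ_ω` to `N` of the pull-backs of `ω` to `M` are holomorphic
`n`-forms on `Z` (`MM/Reg`). The functions `Θ_ω(D_1, ..., D_n)` of `ω` and of the vector fields form
a matrix of finite rank `r ≤ [M : N]` (`Lin`). Let `Θ_1, ..., Θ_r` be a maximal independent set. The minors
`det (Θ_l (D_(j,1), ..., D_(j,n)))` are holomorphic tensors in `(Ω¹)^(⊗ rn)`, and if one of the `Θ_l` is
replaced by `Θ_ω` then the tensor is multiplied by the coefficient `a_l(ω)` of `Θ_l` in `Θ_ω` (`Ten`).
Let `i_1, i_2` be two embeddings of the algebraic closure of `N`, in general position, which agree on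
the field `R` generated by all the `a_l(ω)`. Then `Θ_ω = ∑ a_l(ω) Θ_l` is a relation between the values
of `ω` at the conjugate points of `∏ X_i` for the two embeddings, and since `2 d_i` points are separated
the two sets of points have a point in common. So the elements of `E` are algebraic over `R`, and so are
the elements of `N` (`Core`). Hence `dim Z` of the `a_l(ω)` are algebraically independent.

The relations for the points of several factors and the products of canonical forms
(`Pool/Agent/N145/SX/Chain`, `Prods`) are due to helper145 and others. The other parts are in
`Pool/Agent/L7h62/MV` and `Pool/Agent/L7h62/MM`.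
-/

set_option autoImplicit false
set_option linter.overlappingInstances false
set_option maxHeartbeats 4000000
set_option synthInstance.maxHeartbeats 400000

open FF Module Pool.Agent Pool.Agent.W602.GT
open Pool.Agent.L7h62.MM (CanonicalMapFinite)
open Pool.Agent.L7h62.MV (BigCotangent)

namespace Pool.Agent.Results.MP_fa3f7f_ag.MultivaluedMaps

/-- **The canonical forms separate `r` generic points.** `E` is the function field of a variety `X` of
dimension `m`, and `D` a rational frame of the tangent bundle. The embeddings `σ : E → Ω` are the
generic points of `X` with coordinates in the field `Ω`. At most `r` different such points impose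
independent conditions on the canonical forms `ω` which are regular at all prime divisors: if
`∑ c σ * σ (ω D) = 0` for all `ω` then all the coefficients `c σ` are zero. -/
def SeparatesPoints (E : Type) [Field E] [Algebra ℂ E] (m r : ℕ) : Prop :=
  ∀ D : Fin m → Derivation ℂ E E, LinearIndependent E D →
    ∀ (Ω : Type) [Field Ω] [Algebra ℂ Ω] [IsAlgClosed Ω] (A : Finset (E →ₐ[ℂ] Ω)), A.card ≤ r →
    ∀ c : (E →ₐ[ℂ] Ω) → Ω,
    (∀ ω : (Fin m → Derivation ℂ E E) → E, IsPluri 1 ω →
      (∀ P : Place ℂ E, Divisorial m P → RegAt P ω) → ∑ σ ∈ A, c σ * σ (ω D) = 0) →
    ∀ σ ∈ A, c σ = 0

variable {K : Type} [Field K] [Algebra ℂ K] {k : ℕ}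

/-- The function field of the image `W_i` of `W'` in the product of `W` and the first `i` factors.
Here `K` and `L` are the function fields of `W'` and `W`, and `F l` is the one of the `l`-th
factor. -/
noncomputable def Img (F : Fin k → IntermediateField ℂ K) (L : Type) [Field L] [Algebra L K]
    (i : ℕ) : IntermediateField L K :=
  IntermediateField.adjoin L {z | ∃ l : Fin k, l.val < i ∧ z ∈ F l}

/-- The degree over `W_i` of the image of `W'` in the product of `W_i` and the `i`-th factor. -/
noncomputable def deg (F : Fin k → IntermediateField ℂ K) (L : Type) [Field L] [Algebra L K]
    (i : Fin k) : ℕ :=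
  finrank (Img F L i) (IntermediateField.adjoin (Img F L i) (F i : Set K))

/-- The functions on the factors are algebraic over the subfield `N` of `L`, and `N` is algebraically
closed in `L`: `N` is the function field of the base `Z` of a fibration `W ⇢ Z` whose fibres are images
of subvarieties of the fibres of `W'` over the product of the factors. -/
def Base (F : Fin k → IntermediateField ℂ K) (L : Type) [Field L] [Algebra ℂ L]
    [Algebra L K] [IsScalarTower ℂ L K] (N : IntermediateField ℂ L) : Prop :=
  (∀ z : L, IsAlgebraic N z → z ∈ N) ∧ ∀ i : Fin k, ∀ z ∈ F i, IsAlgebraic N z

theorem img_eq (F : Fin k → IntermediateField ℂ K) (L : Type) [Field L] [Algebra L K]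
    (i : Fin k) : Img F L i = N145.PC.MF F L (N145.PC.Js k i.val) := by
  unfold Img N145.PC.MF N145.PC.MJ
  congr 1
  ext z
  simp only [Set.mem_iUnion, N145.PC.mem_Js, Set.mem_range, exists_prop]
  constructor
  · rintro ⟨l, hl, hz⟩
    exact ⟨l, hl, ⟨z, hz⟩, rfl⟩
  · rintro ⟨l, hl, z, rfl⟩
    exact ⟨l, hl, z.2⟩

theorem deg_eq (F : Fin k → IntermediateField ℂ K) (L : Type) [Field L] [Algebra L K]
    (i : Fin k) : deg F L i =
      finrank (N145.PC.MF F L (N145.PC.Js k i.val))
        (IntermediateField.adjoin (N145.PC.MF F L (N145.PC.Js k i.val)) (F i : Set K)) := by
  unfold deg
  rw [img_eq]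

/-- **Varieties with multivalued maps to products.** Let `K` and `L ⊆ K` be the function fields of the
varieties `W'` and `W`, where `K / L` is finite. Let `F i`, `i < k`, be the function fields of
varieties `X_i` of dimension `m i` with dominant rational maps `W' ⇢ X_i` such that `W' ⇢ ∏ X_i` is
dominant, i.e. the transcendence degree of the compositum of the `F i` is `∑ m i`. Suppose that for
all `i` the canonical forms of `X_i` separate `2 d i` generic points, where `d i` is the degree over
`W_i` of the image of `W'` in the product of `W_i` and `X_i`. Then there is a subfield `N` of `L`, the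
function field of a variety `Z` of dimension `w`, such that: `N` is algebraically closed in `L` and the
functions on the `X_i` are algebraic over `N`, and `N` is the smallest subfield with these properties;
a tensor power of the cotangent bundle of `Z` contains a big line bundle; `∑ m i ≤ w`, and if `∑ m i =
w` then the canonical map of `Z` is generically finite. -/
theorem result (k : ℕ) (m : Fin k → ℕ) (K : Type) [Field K] [Algebra ℂ K]
    [Algebra.EssFiniteType ℂ K] (F : Fin k → IntermediateField ℂ K)
    (hm : ∀ i, Algebra.trdeg ℂ (F i) = m i)
    (hF : Algebra.trdeg ℂ (⨆ i, F i : IntermediateField ℂ K) = (∑ i, m i : ℕ))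
    (L : Type) [Field L] [Algebra ℂ L] [Algebra L K] [IsScalarTower ℂ L K] [FiniteDimensional L K]
    (hX : ∀ i : Fin k, SeparatesPoints (F i) (m i) (2 * deg F L i)) :
    ∃ (N : IntermediateField ℂ L) (w : ℕ),
      (Base F L N ∧ ∀ N' : IntermediateField ℂ L, Base F L N' → N ≤ N') ∧
      BigCotangent N w ∧ ∑ i, m i ≤ w ∧ (w = ∑ i, m i → CanonicalMapFinite N w) := by
  have hess : ∀ i, Algebra.EssFiniteType ℂ (F i) := fun i => N999.SX.ess_any _
  choose x D hx hD using fun i : Fin k => Y172.exists_crd (hm i)
  obtain ⟨N, w, ⟨h1, h2, h3⟩, h4⟩ := L7h62.MV.multival (L := L) hm hF hx
    (g := fun i => 2 * deg F L i + 1)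
    (fun i => N145.SX.sepX_of' (hx i) (hD i) fun Ω _ _ _ A hA c hc =>
      hX i (D i) (N145.SX.dual_indep (hD i)) Ω A hA c hc)
    (fun i => by
      rw [deg_eq]
      exact Nat.lt_succ_self _)
  exact ⟨N, w, ⟨⟨h1, h2⟩, fun N' hN' => h3 N' hN'.1 hN'.2⟩, h4⟩

end Pool.Agent.Results.MP_fa3f7f_ag.MultivaluedMaps
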