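import Pool.Agent.L7h62.SD.Fin

/-!
# Minimal models of varieties whose symmetric differentials have no common zeros

Let `W` be a projective variety over `ℂ` of dimension `n ≥ 1`. Suppose that for some `m ≥ 1` the
holomorphic symmetric differentials of degree `m` (the sections of `S^m Ω¹` on a smooth model, or of
`(Ω¹)^(⊗ m)`) have no common zero at the general point `x` of `W`: for every tangent vector `v ≠ 0` at `x`
there is one with `T(v, ..., v) ≠ 0`. For example

* `m = 1`: varieties of maximal Albanese dimension;
* `m` general: varieties with a finite covering `W' ⇢ W` such that the pull-back of `Ω¹_W` to `W'` is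
  generically generated by sections (take norms), in particular étale quotients of the former;
* varieties such that `S^m Ω¹` is generically generated by sections; products of all these varieties,
  and all varieties with a generically finite rational map to one of them.

**Theorem.** (1) `W` has a pluricanonical form: `κ(W) ≥ 0`. (2) If `κ(W) = 0` there is a finite Galois
covering `W₁ ⇢ W` with `n` linearly independent holomorphic one-forms `v_1, ..., v_n`, such that all
pluricanonical forms of `W₁` are constant multiples of the powers of `v_1 ∧ ... ∧ v_n`; so `κ(W₁) = 0`.

## Consequences for Q1

**Every such variety `W`, of any dimension and any Kodaira dimension, has a good minimal model, and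
Q1 is true for all varieties birational to `W`.** In fact let `F` be a general fibre of the Iitaka
fibration of `W`, which exists by (1); `κ(F) = 0`. The restrictions of the symmetric differentials of
`W` to `F` are holomorphic and have no common zero. By (2) there is a finite covering `F₁ ⇢ F` with
`κ(F₁) = 0` and with `dim F₁` independent holomorphic one-forms, so `F₁` is birational to an abelian
variety (Kawamata, Characterization of abelian varieties, 1981). Hence `0 ≤ κ(F) ≤ κ_σ(F) ≤ κ_σ(F₁) = 0`,
and `F` has a good minimal model (Gongyo 2011, Druel 2011). By the theorem of Lai (Varieties fibered by good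
minimal models, 2011) `W` has a good minimal model. (These consequences use the published theorems,
and are not part of the Lean proof.)

For varieties of maximal Albanese dimension this is due to Fujino. That a variety with `κ = 0` such that
`S^m Ω¹` is generically generated is birational to an abelian variety was proved by Mistretta (Holomorphic
symmetric differentials and a birational characterization of abelian varieties, Math. Nachr. 2020) under
the conjectures of the minimal model program; here no conjecture is used, and the base points of the
linear system of symmetric differentials on `P(Ω¹)` are only excluded over the general point of `W`.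

## Proof

The reduction to `n` forms `T_1, ..., T_n` uses only linear combinations (`Red`). Let `R` be the resultant of
`n` forms of degree `m` in `n` variables. It is constructed as the generator of the ideal of the
polynomials in the coefficients which vanish for the tuples with a common zero (`Defs`, `Defs2`, and the
files of `L7h26`, `L7h65`, `L7h73`, `L7h97`): this ideal is prime and principal, `R` is multiplied by
`det(g)^k` under the substitution `g` of the variables, and `R^M x_j^M` is in the ideal of the forms.
So `Θ = R(T_1, ..., T_n)` is a holomorphic `k`-canonical form on `W`, and it is not zero (`Sys`).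

Let `κ(W) = 0`. (a) If `c` is an algebraic function on `W` such that `Θ^q c` is integral over the local
rings of all prime divisors then `c` is constant, since the coefficients of the minimal polynomial of `c`,
multiplied by a power of `Θ`, are holomorphic pluricanonical forms (`Bdd`). (b) Let `V` be the set of
the multivalued vector fields `x` with `T_i(x, ..., x)` constant for all `i`. By the last property of `R`
the coordinates of `x` are integral up to powers of `Θ`, so `V` is closed under addition, by (a) (`Add`).
By the theorem of the dimension of the fibres `V` is not contained in a hyperplane; so `V` has a basis in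
which the coefficients of the `T_i` are constants, and `V` is a vector space of dimension `n` over
`ℂ` (`Frame`). (c) The conjugates of the vectors of `V` are in `V`, so the basis is defined over a finite
Galois extension; this is `W₁`, and the dual basis are the one-forms `v_i` (`Cv`). They are holomorphic
since the values `T_i(D, ..., D)` at holomorphic vector fields are polynomials `b_i(v(D))` with constant
coefficients and no common zero (`Vf`). (d) `W₁` is unramified over the prime divisors where `Θ` does not
vanish: there the matrix `w` of the values of the `v_i` on a frame of `W` is invertible; the derivative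
along the transversal vector field `δ` is `δ w = B w`, and the `n`-tuple of forms `b_i` has no infinitesimal
automorphisms, so `B` has coefficients in the ring generated by the functions on `W` and the entries of
`w` and `w⁻¹`. This ring is stable under `δ`, and since `δ` decreases all orders (not divisible by the
ramification index `e`, or zero) by `e`, it follows that `e = 1` (`Lgs`, `Lie`, `Inv`). (e) So the quotient of an
`r`-canonical form of `W₁` and `(v_1 ∧ ... ∧ v_n)^r` satisfies the condition in (a) with `q = 2r`, and it is
constant (`Kod`).

The existence and the properties of the resultant and two statements about forms without common zeros are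
due to helper26 (integrality, covariance, fibres), helper65 (principal prime ideals), helper73 (kernel
description, independence, Macaulay matrices) and helper97 (certificates, stabilizers).
-/

set_option autoImplicit false
set_option linter.overlappingInstances false
set_option maxHeartbeats 4000000
set_option synthInstance.maxHeartbeats 400000

open FF Module Pool.Agent Pool.Agent.W602.GT

namespace Pool.Agent.Results.MP_fa3f7f_ag.SymmetricDifferentials

/-- **Holomorphic covariant tensors** (sections of `(Ω¹)^(⊗ m)` on the smooth models of the function
field `K`, of transcendence degree `n`): the values on vector fields which are regular at a prime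
divisor are regular. -/
def Holomorphic {K : Type} [Field K] [Algebra ℂ K] (n : ℕ) {m : ℕ}
    (T : MultilinearMap K (fun _ : Fin m => Derivation ℂ K K) K) : Prop :=
  ∀ P : Place ℂ K, Divisorial n P →
    ∀ D : Fin m → Derivation ℂ K K, (∀ l, DerReg P (D l)) → P.Reg (T D)

/-- **The symmetric differentials of degree `m` have no common zero at the generic point.** `D` is a
rational frame, and the `x` are the tangent vectors `∑ x_i D_i` at the generic point, with coordinates in
the algebraic closure of `K`; for `x ≠ 0` there is a holomorphic tensor `T` with `T(x, ..., x) ≠ 0`. -/
def NoCommonZero (K : Type) [Field K] [Algebra ℂ K] (n m : ℕ) : Prop :=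
  ∃ D : Fin n → Derivation ℂ K K, ∀ x : Fin n → AlgebraicClosure K, x ≠ 0 →
    ∃ T : MultilinearMap K (fun _ : Fin m => Derivation ℂ K K) K, Holomorphic n T ∧
      ∑ j : Fin m → Fin n, algebraMap K (AlgebraicClosure K) (T fun l => D (j l)) *
        ∏ l, x (j l) ≠ 0

/-- A holomorphic `r`-canonical form. -/
def Pluricanonical {K : Type} [Field K] [Algebra ℂ K] {n : ℕ} (r : ℕ)
    (ω : (Fin n → Derivation ℂ K K) → K) : Prop :=
  IsPluri r ω ∧ ∀ P : Place ℂ K, Divisorial n P → RegAt P ω

/-- The Kodaira dimension is at most zero: for all `r ≥ 1` two holomorphic `r`-canonical forms are
linearly dependent over `ℂ`. -/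
def KodairaAtMostZero (K : Type) [Field K] [Algebra ℂ K] (n : ℕ) : Prop :=
  ∀ r : ℕ, 1 ≤ r → ∀ ω₁ ω₂ : (Fin n → Derivation ℂ K K) → K, Pluricanonical r ω₁ →
    Pluricanonical r ω₂ → (∃ D, ω₂ D ≠ 0) → ∃ c : ℂ, ∀ D, ω₁ D = algebraMap ℂ K c * ω₂ D

/-- There are `n` linearly independent holomorphic one-forms `v k`, and every holomorphic
`r`-canonical form, `r ≥ 1`, is a constant multiple of the `r`-th power of their exterior product. So
the Kodaira dimension is zero and the irregularity is at least `n`. -/
def AbelianLike (K : Type) [Field K] [Algebra ℂ K] (n : ℕ) : Prop :=
  ∃ v : Fin n → (Derivation ℂ K K →ₗ[K] K), LinearIndependent K v ∧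
    (∀ P : Place ℂ K, Divisorial n P → ∀ k D, DerReg P D → P.Reg (v k D)) ∧
    ∀ r : ℕ, 1 ≤ r → ∀ ω : (Fin n → Derivation ℂ K K) → K, Pluricanonical r ω →
      ∃ c : ℂ, ∀ D, ω D = algebraMap ℂ K c * (Matrix.of fun k l => v k (D l)).det ^ r

/-- **Varieties whose symmetric differentials have no common zeros.** Let `K` be the function field of
a variety `W` of dimension `n ≥ 1`, such that for some `m ≥ 1` the holomorphic symmetric differentials
of degree `m` have no common zero at the generic point. Then there is a nonzero holomorphic `r`-canonical
form for some `r ≥ 1`, and if the Kodaira dimension of `W` is at most zero there is a finite Galois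
extension `F` of `K` with `n` independent holomorphic one-forms, such that all the pluricanonical forms are
constant multiples of the powers of their exterior product. -/
theorem result (n m : ℕ) (hn : 1 ≤ n) (hm : 1 ≤ m) (K : Type) [Field K] [Algebra ℂ K]
    [Algebra.EssFiniteType ℂ K] (hK : Algebra.trdeg ℂ K = n) (h : NoCommonZero K n m) :
    (∃ r : ℕ, 1 ≤ r ∧ ∃ Θ : (Fin n → Derivation ℂ K K) → K, Pluricanonical r Θ ∧ ∃ D, Θ D ≠ 0) ∧
    (KodairaAtMostZero K n → ∃ F : IntermediateField K (AlgebraicClosure K),
      FiniteDimensional K F ∧ IsGalois K F ∧ AbelianLike F n) := by
  obtain ⟨D, hD⟩ := h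
  obtain ⟨⟨r, hr, Θ, h1, h2, h3⟩, h4⟩ := L7h62.SD.symdiff hK hn hm hD
  refine ⟨⟨r, hr, Θ, ⟨h1, h2⟩, h3⟩, fun hκ => ?_⟩
  obtain ⟨F, hF1, hF2, v, hv1, hv2, hv3⟩ := h4 fun r hr ω₁ ω₂ a1 a2 a3 a4 =>
    hκ r hr ω₁ ω₂ ⟨a1, a3⟩ ⟨a2, a4⟩
  exact ⟨F, hF1, hF2, v, hv1, hv2, fun r hr ω hω => hv3 r hr ω hω.1 hω.2⟩

end Pool.Agent.Results.MP_fa3f7f_ag.SymmetricDifferentials
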