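import Pool.Agent.L7h62.MV.Main

/-!
# Minimal models of images of varieties with many holomorphic forms

Let `V ⇢ W` be a dominant rational map of finite degree between projective varieties over `ℂ` of
dimension `N`. Suppose that Q1 is known for `V`, and even that `V` has a good minimal model. It is not
known whether Q1 is then true for `W`. We show that `W` has a good minimal model if it has a canonical
form and if the degree is small compared with the canonical forms of `V`; and more generally we treat
systems of holomorphic forms of arbitrary degree on `V`.

For `i < k` let `V ⇢ B_i` be dominant rational maps, and let `ω_i` be rational `p_i`-forms on `V`. The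
holomorphic forms `f ω_i` on `V`, where `f` is a function on `B_i`, are the sections of a line bundle (on
`B_i`); for example if `V` is the product of the `V_i` and `B_i` is the canonical image of `V_i` these may
be all canonical forms of `V_i`. Let `W_i` be the image of `V` in `W × B_0 × ... × B_(i-1)`, and let `d_i` be
the degree over `W_i` of the image of `V` in `W_i × B_i`; so `d_0` is the number of points of `B_0` which
correspond to a general point of `W`.

**Theorem.** Suppose that for all `i` the holomorphic forms `f ω_i`, `f ∈ ℂ(B_i)`, separate `2 d_i`
generic points of `B_i`, and that the trace to `W` of one of the forms `f_0 ω_0 ∧ ... ∧ f_(k-1) ω_(k-1)`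
is not zero. Then there are algebraically independent functions `u_1, ..., u_t` on `W` such that the
functions on all the `B_i` are algebraic over `ℂ(u_1, ..., u_t)`; in particular `t` is at least the
dimension of the image of `V` in `B_0 × ... × B_(k-1)`; and there is a holomorphic section `τ ≠ 0` of a tensor
power of the cotangent bundle of `W` such that `u_1 τ, ..., u_t τ` are holomorphic. If
`p_0 + ... + p_(k-1) = N` then `τ` is a canonical form.

## Consequences for Q1

* **Canonical forms.** Let `V` be the product of varieties `V_i` which have good minimal models, e.g.
  `k = 1`, such that the canonical forms of `V_i` separate `2 d_i` generic points of the canonical image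
  `B_i` of `V_i`, and `dim B_i = κ(V_i)`. Let `p_g(W) ≠ 0`. The pull-back of a canonical form of `W` to `V`
  is a sum of products of canonical forms of the `V_i`, and its trace is a multiple of the form, so that
  the trace of one of the products is not zero. By the theorem `κ(W) ≥ ∑ dim B_i = κ(V)`. Since
  `κ_σ(W) ≤ κ_σ(V) = κ(V)`, we have `κ(W) = κ_σ(W)`, and **`W` has a good minimal model** (Lai 2011,
  Gongyo and Lehmann 2013), and Q1 is true for all varieties birational to `W`. They have any dimension, and
  any Kodaira dimension `≥ 0`: the `V_i` may be curves, elliptic surfaces or other elliptic fibrations with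
  many canonical forms, varieties with `K = 0` (here `B_i` is a point and `d_i = 1`, so there is no condition on
  the degree), and varieties of general type.
* **Forms of smaller degree.** Let `K_W` be pseudo-effective; otherwise Q1 is true by Birkar, Cascini,
  Hacon and McKernan. Let `g : W ⇢ S` be the connected map given by the functions `u`, and let `A` be an
  ample divisor on `S`. By the theorem of Campana and Păun (Publ. Math. IHÉS 2019) the quotients of the tensor
  powers of `Ω¹_W` have pseudo-effective determinants, so the theorem shows that `m K_W - g^*A` is
  pseudo-effective for some `m` (on a suitable model). If the general fibre `G` of `g` has a good minimal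
  model then so has `W`: it has one over `S` (Hacon and Xu 2013), `K` is the pull-back of a divisor on the
  relative canonical model `T → S` which is ample over `S`, and which is big since `m K_W - g^*A` is
  pseudo-effective; so `W ⇢ T` is the Iitaka fibration and Lai's theorem applies. This holds **if
  `dim W - t ≤ 3`**, and **if `V` has a good minimal model with `κ(V) ≤ t`**: then `m K_V - g^*A` is
  pseudo-effective too, so that `g^*A` is numerically trivial on the general fibres `F` of the Iitaka
  fibration of `V` (`κ_σ(F) = 0`). For reasons of dimension these are the components of the fibres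
  of `V ⇢ S`, so `κ_σ(G) ≤ κ_σ(F) = 0`, and `G` has a good minimal model (Gongyo 2011, Druel 2011).

(These consequences use the published theorems, and are not part of the Lean proof.) In
`MP_fa3f7f_ag.DominatedByProducts` and `MultivaluedMaps` the points of the varieties `X_i` themselves are
separated, so that the `X_i` are of general type; but there is no condition on the traces there, and the
forms are found on the base of a fibration. Here the `B_i` may be uniruled.

## Proof

Let `K`, `L` be the function fields of `V`, `W`, and `T` the compositum of the `ℂ(B_i)`. Let `h_D ∈ K` be the
value of `ω_0 ∧ ... ∧ ω_(k-1)` on the lifts of a tuple `D` of vector fields on `W`. The traces of `f h_D`,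
where `f` is a product of functions as above, form a matrix of finite rank `r ≤ [K : L]` (`Lin`), and its
minors are holomorphic tensors on `W` (`MM/Reg`, `Ten`). If one row of an `r`-minor is replaced by the row of
`f`, it is multiplied by a function `a_l(f)`. For two generic embeddings of the algebraic closure of `L`
which agree on the field `R` of the `a_l(f)` one gets a linear relation between the values of the `f` at the
points of the `B_i` below the two points of `W`. By the separation of points the partial traces of the
`h_D` to `L T` are zero, which is excluded, or two of the points are equal. So `T` is algebraic over `R`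
(`SepH`), and `t` is the transcendence degree of `R` (`Main`).

The relations for the points of several factors (`Pool/Agent/N145/SX/Chain`) are due to helper145 and
others. The other parts are in `Pool/Agent/L7h62/MV` and `Pool/Agent/L7h62/MM`.
-/

set_option autoImplicit false
set_option linter.overlappingInstances false
set_option maxHeartbeats 4000000
set_option synthInstance.maxHeartbeats 400000

open FF Module Pool.Agent Pool.Agent.W602.GT
open Pool.Agent.L7h62.MV (Sections TensorSystem CanonicalSystem wedge)

namespace Pool.Agent.Results.MP_fa3f7f_ag.TracesOfForms

variable {K : Type} [Field K] [Algebra ℂ K] {k : ℕ}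

/-- **The holomorphic forms `f ω`, `f ∈ B`, separate `r` generic points of `B`.** The embeddings
`σ : B → Ω` are the generic points of the variety with the function field `B` with coordinates in the
field `Ω`. At most `r` different such points impose independent conditions on the functions `f` such
that `f ω` is holomorphic: if `∑ c σ * σ f = 0` for all `f` then all the coefficients `c σ` are zero. -/
def SeparatesPoints (N : ℕ) {p : ℕ} (B : IntermediateField ℂ K)
    (ω : (Derivation ℂ K K) [⋀^Fin p]→ₗ[K] K) (r : ℕ) : Prop :=
  ∀ (Ω : Type) [Field Ω] [Algebra ℂ Ω] [IsAlgClosed Ω] (A : Finset (B →ₐ[ℂ] Ω)), A.card ≤ r →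
    ∀ c : (B →ₐ[ℂ] Ω) → Ω, (∀ f ∈ Sections N B ω, ∑ σ ∈ A, c σ * σ f = 0) → ∀ σ ∈ A, c σ = 0

/-- The function field of the image `W_i` of `V` in the product of `W` and the first `i` varieties
`B_l`. Here `K` and `L` are the function fields of `V` and `W`. -/
noncomputable def Img (B : Fin k → IntermediateField ℂ K) (L : Type) [Field L] [Algebra L K]
    (i : ℕ) : IntermediateField L K :=
  IntermediateField.adjoin L {z | ∃ l : Fin k, l.val < i ∧ z ∈ B l}

/-- The degree over `W_i` of the image of `V` in the product of `W_i` and `B_i`. -/
noncomputable def deg (B : Fin k → IntermediateField ℂ K) (L : Type) [Field L] [Algebra L K]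
    (i : Fin k) : ℕ :=
  finrank (Img B L i) (IntermediateField.adjoin (Img B L i) (B i : Set K))

theorem img_eq (B : Fin k → IntermediateField ℂ K) (L : Type) [Field L] [Algebra L K]
    (i : Fin k) : Img B L i = N145.PC.MF B L (N145.PC.Js k i.val) := by
  unfold Img N145.PC.MF N145.PC.MJ
  congr 1
  ext z
  simp only [Set.mem_iUnion, N145.PC.mem_Js, Set.mem_range, exists_prop]
  constructor
  · rintro ⟨l, hl, hz⟩
    exact ⟨l, hl, ⟨z, hz⟩, rfl⟩
  · rintro ⟨l, hl, z, rfl⟩
    exact ⟨l, hl, z.2⟩

theorem deg_eq (B : Fin k → IntermediateField ℂ K) (L : Type) [Field L] [Algebra L K]
    (i : Fin k) : deg B L i =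
      finrank (N145.PC.MF B L (N145.PC.Js k i.val))
        (IntermediateField.adjoin (N145.PC.MF B L (N145.PC.Js k i.val)) (B i : Set K)) := by
  unfold deg
  rw [img_eq]

/-- **Traces of systems of holomorphic forms.** Let `K` and `L ⊆ K` be the function fields of
varieties `V` and `W` of dimension `N`, where `K / L` is finite. Let `B i`, `i < k`, be the function
fields of varieties `B_i` with dominant rational maps `V ⇢ B_i`, and let `ω i` be rational `p i`-forms
on `V`. Suppose that for all `i` the holomorphic forms `f * ω i`, `f ∈ B i`, separate `2 d i` generic
points of `B_i`, where `d i` is the degree over `W_i` of the image of `V` in the product of `W_i` and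
`B_i`; and that the trace to `W` of the exterior product of some of these forms `f i * ω i` is not zero.
Then there are `t` algebraically independent elements `u j` of `L` such that the elements of the `B i`
are algebraic over the field generated by the `u j`, so that `t` is at least the transcendence degree of
the compositum of the `B i`, and a holomorphic tensor `τ ≠ 0` on `W` such that the tensors `u j * τ` are
holomorphic; and if the sum of the degrees `p i` is `N` then this is true with canonical forms. -/
theorem result (k N : ℕ) (p : Fin k → ℕ) (K : Type) [Field K] [Algebra ℂ K]
    [Algebra.EssFiniteType ℂ K] (hK : Algebra.trdeg ℂ K = N) (B : Fin k → IntermediateField ℂ K)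
    (ω : ∀ i, (Derivation ℂ K K) [⋀^Fin (p i)]→ₗ[K] K)
    (L : Type) [Field L] [Algebra ℂ L] [Algebra L K] [IsScalarTower ℂ L K] [FiniteDimensional L K]
    (hS : ∀ i : Fin k, SeparatesPoints N (B i) (ω i) (2 * deg B L i))
    (hT : ∃ f : ∀ i, B i, (∀ i, f i ∈ Sections N (B i) (ω i)) ∧
      ∃ (D : (i : Fin k) × Fin (p i) → Derivation ℂ L L)
        (D' : (i : Fin k) × Fin (p i) → Derivation ℂ K K),
        (∀ j z, D' j (algebraMap L K z) = algebraMap L K (D j z)) ∧
        Algebra.trace L K ((∏ i, (f i : K)) * wedge ω D') ≠ 0) :
    ∃ (t : ℕ) (u : Fin t → L), TensorSystem L N t u ∧
      (∑ i, p i = N → CanonicalSystem L N t u) ∧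
      (∀ i, ∀ z ∈ B i, IsAlgebraic (IntermediateField.adjoin ℂ (Set.range u)) z) ∧
      Algebra.trdeg ℂ (⨆ i, B i : IntermediateField ℂ K) ≤ t :=
  L7h62.MV.traces hK ω (g := fun i => 2 * deg B L i + 1)
    (fun Ω _ _ _ i A hA c hc => hS i Ω A (Nat.le_of_lt_succ hA) c hc)
    (fun i => by
      rw [deg_eq]
      exact Nat.lt_succ_self _) hT

end Pool.Agent.Results.MP_fa3f7f_ag.TracesOfForms
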